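import Pool.Agent.N241.MS.Fin

/-!
# A maximal 1-system of curves on the closed surface of genus two that does not fill
-/

set_option autoImplicit false

namespace Pool.Agent.Results.MP_14cec7_gt.MaximalOneSystemNotFilling

open Pool.Agent.N241.MS

/-- `Surf` is a closed surface (the double of a torus with one hole: the closed orientable surface
of genus two), with an essential null-homologous simple closed curve, and there is a maximal
1-system on it which does not fill. In general, an essential null-homologous simple closed curve
`c` lies in a maximal 1-system, and `c` is isolated in every maximal 1-system that contains it, and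
such a system does not fill. -/
theorem result :
    (ClosedSurface Surf ∧ HasSeparatingCurve Surf ∧ HasNonFillingMaximalSystem Surf) ∧
    ∀ (S : Type) [TopologicalSpace S] [T2Space S] (c : Curve S),
      c.loop.Essential → c.loop.NullHomologous →
      (∃ Γ : Set (Cls S), MaximalOneSystem Γ ∧ c.cls ∈ Γ) ∧
      ∀ Γ : Set (Cls S), MaximalOneSystem Γ → c.cls ∈ Γ →
        Isolated c Γ ∧ NeverFills Γ ∧ ¬ Fills Γ :=
  ⟨⟨closedSurface_surf, exists_neck, hasNonFilling_surf⟩, fun S _ _ c h1 h2 => general S c h1 h2⟩

end Pool.Agent.Results.MP_14cec7_gt.MaximalOneSystemNotFilling
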